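import Mathlib

/-!
# Project XR (MP_5df5df_gt): verification of convex bodies in 3-space by three X-rays

Definitions. The plane is `ℂ`, three-space is `ℂ × ℝ` (the second coordinate is the height).
-/

set_option autoImplicit false

open MeasureTheory Set
open scoped Real ENNReal

namespace Pool.Agent.H45.XR

/-- The unit vector with angle `φ`. -/
noncomputable def e (φ : ℝ) : ℂ := Complex.exp (φ * Complex.I)

/-- Signed coordinate orthogonal to `e φ`: `det (e φ, z)`, positive to the left of `e φ`. -/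
noncomputable def tc (φ : ℝ) (z : ℂ) : ℝ := Real.cos φ * z.im - Real.sin φ * z.re

/-- Coordinate along `e φ`. -/
noncomputable def yc (φ : ℝ) (z : ℂ) : ℝ := Real.cos φ * z.re + Real.sin φ * z.im

/-- A planar convex body with the origin in its interior. -/
structure Body (C : Set ℂ) : Prop where
  conv : Convex ℝ C
  cpt : IsCompact C
  zero : (0 : ℂ) ∈ interior C

/-- Radial function. -/
noncomputable def rad (C : Set ℂ) (θ : ℝ) : ℝ := (gauge C (e θ))⁻¹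

/-- The boundary point with polar angle `θ`. -/
noncomputable def pt (C : Set ℂ) (θ : ℝ) : ℂ := (rad C θ : ℂ) * e θ

/-- For `θ < θ' < θ + 2π` : a continuous choice of the argument of `pt C θ' - pt C θ`
(see `Phi_spec`). -/
noncomputable def Phi (C : Set ℂ) (θ θ' : ℝ) : ℝ :=
  θ' + Complex.arg ((rad C θ' : ℂ) - (rad C θ : ℂ) * e (-(θ' - θ)))

/-- No boundary segment of `C` is parallel to `e φ`: a line parallel to `e φ` which meets `C` in
two points meets the interior of `C`. -/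
def NoSeg (C : Set ℂ) (φ : ℝ) : Prop :=
  ∀ p ∈ C, ∀ q ∈ C, p ≠ q → tc φ p = tc φ q → ∃ z ∈ interior C, tc φ z = tc φ p

/-- Equality of the X-rays in direction `e φ`. -/
def SameX (C C' : Set ℂ) (φ : ℝ) : Prop :=
  ∀ p : ℂ, volume {s : ℝ | p + s * e φ ∈ C} = volume {s : ℝ | p + s * e φ ∈ C'}

/-- `p` is the only common point of `C`, `C'` on the line through `p` parallel to `e φ`. -/
def Lone (C C' : Set ℂ) (φ : ℝ) (p : ℂ) : Prop :=
  ∀ s : ℝ, p + s * e φ ∈ C → p + s * e φ ∈ C' → s = 0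

/-- Angles of the common boundary points. -/
def EE (C C' : Set ℂ) : Set ℝ := {θ | rad C θ = rad C' θ}

/-- (Twice) the signed area between the two boundaries. -/
noncomputable def Psi (C C' : Set ℂ) (θ : ℝ) : ℝ :=
  ∫ s in (0 : ℝ)..θ, (rad C' s ^ 2 - rad C s ^ 2)

/-- gcd of the differences of the `c i` and of `M`. -/
def gc (M : ℕ) (c : Fin 3 → ℤ) : ℕ :=
  Int.gcd (Int.gcd (c 1 - c 0) (c 2 - c 0)) M

/-- Combinatorial types. -/
structure Typ (M : ℕ) (c : Fin 3 → ℤ) : Prop where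
  hM : 3 ≤ M
  h01 : c 0 < c 1
  h12 : c 1 < c 2
  h20 : c 2 < c 0 + M
  g1 : gc M c ≠ 1
  g2 : gc M c = 2 → Even (c 0)

/-- The closed sets of bad directions of type `(M, c)` with separation `κ`. -/
def Zset (C : Set ℂ) (M : ℕ) (c : Fin 3 → ℤ) (κ : ℝ) : Set (Fin 3 → ℝ) :=
  {φ | ∃ v : ℤ → ℝ, (∀ x, v (x + M) = v x + 2 * π) ∧ (∀ x, v x + κ ≤ v (x + 1)) ∧
    v 0 ∈ Icc 0 (2 * π) ∧
    ∀ i x y, x + y = c i → x < y → y < x + M → Phi C (v x) (v y) = φ i}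

/-- The hexagon configuration (type `M = 6`): six points of `C`, not in the interior of `C`. -/
structure Hex (C : Set ℂ) (φ : Fin 3 → ℝ) (p : Fin 6 → ℂ) : Prop where
  mem : ∀ x, p x ∈ C
  nint : ∀ x, p x ∉ interior C
  r0a : ∃ s : ℝ, 0 < s ∧ p 1 = p 5 + s * e (φ 0)
  r0b : ∃ s : ℝ, 0 < s ∧ p 2 = p 4 + s * e (φ 0)
  r1a : ∃ s : ℝ, 0 < s ∧ p 2 = p 0 + s * e (φ 1)
  r1b : ∃ s : ℝ, 0 < s ∧ p 3 = p 5 + s * e (φ 1)
  r2a : ∃ s : ℝ, 0 < s ∧ p 3 = p 1 + s * e (φ 2)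
  r2b : ∃ s : ℝ, 0 < s ∧ p 4 = p 0 + s * e (φ 2)
  t0 : tc (φ 0) (p 0) < tc (φ 0) (p 1) ∧ tc (φ 0) (p 1) < tc (φ 0) (p 2) ∧
    tc (φ 0) (p 2) < tc (φ 0) (p 3)
  t1 : tc (φ 1) (p 1) < tc (φ 1) (p 0) ∧ tc (φ 1) (p 0) < tc (φ 1) (p 5) ∧
    tc (φ 1) (p 5) < tc (φ 1) (p 4)
  t2 : tc (φ 2) (p 2) < tc (φ 2) (p 1) ∧ tc (φ 2) (p 1) < tc (φ 2) (p 0) ∧
    tc (φ 2) (p 0) < tc (φ 2) (p 5)

/-- Hexagon configuration of a pair of bodies. -/
structure HexPair (C C' : Set ℂ) (φ : Fin 3 → ℝ) (p : Fin 6 → ℂ) : Prop where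
  hex : Hex C φ p
  mem' : ∀ x, p x ∈ C'
  l0 : Lone C C' (φ 0) (p 0) ∧ Lone C C' (φ 0) (p 3)
  l1 : Lone C C' (φ 1) (p 1) ∧ Lone C C' (φ 1) (p 4)
  l2 : Lone C C' (φ 2) (p 2) ∧ Lone C C' (φ 2) (p 5)

/-- A convex body in three-space. -/
structure Body3 (K : Set (ℂ × ℝ)) : Prop where
  conv : Convex ℝ K
  cpt : IsCompact K
  ne : (interior K).Nonempty

/-- Horizontal section at height `h`. -/
def sec (K : Set (ℂ × ℝ)) (h : ℝ) : Set ℂ := {z | (z, h) ∈ K}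

/-- The open interval of heights of interior points. -/
def Hts (K : Set (ℂ × ℝ)) : Set ℝ := {h | ∃ z, (z, h) ∈ interior K}

/-- The critical configuration at a height `h` where the two bodies start to differ. -/
def Crit (K : Set (ℂ × ℝ)) (φ : Fin 3 → ℝ) (h : ℝ) : Prop :=
  ∃ p0 ∈ sec K h, ∃ p2 ∈ sec K h, ∃ p4 ∈ sec K h,
    (∃ s : ℝ, 0 < s ∧ p2 = p4 + s * e (φ 0)) ∧
    (∃ s : ℝ, 0 < s ∧ p2 = p0 + s * e (φ 1)) ∧
    (∃ s : ℝ, 0 < s ∧ p4 = p0 + s * e (φ 2)) ∧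
    (∀ z ∈ sec K h, tc (φ 0) p0 ≤ tc (φ 0) z) ∧
    (∀ z ∈ sec K h, tc (φ 1) z ≤ tc (φ 1) p4) ∧
    (∀ z ∈ sec K h, tc (φ 2) p2 ≤ tc (φ 2) z)

/-! ### Elementary facts -/

lemma e_eq (φ : ℝ) : e φ = ⟨Real.cos φ, Real.sin φ⟩ := by
  apply Complex.ext <;> simp [e, Complex.exp_ofReal_mul_I_re, Complex.exp_ofReal_mul_I_im]

@[simp] lemma e_re (φ : ℝ) : (e φ).re = Real.cos φ := by rw [e_eq]
@[simp] lemma e_im (φ : ℝ) : (e φ).im = Real.sin φ := by rw [e_eq]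

@[simp] lemma norm_e (φ : ℝ) : ‖e φ‖ = 1 := Complex.norm_exp_ofReal_mul_I φ

lemma e_ne_zero (φ : ℝ) : e φ ≠ 0 := Complex.exp_ne_zero _

lemma e_add (φ ψ : ℝ) : e (φ + ψ) = e φ * e ψ := by
  simp [e, add_mul, Complex.exp_add]

@[simp] lemma e_zero : e 0 = 1 := by simp [e]

@[simp] lemma e_pi : e π = -1 := by simp [e, Complex.exp_pi_mul_I]

@[simp] lemma e_two_pi : e (2 * π) = 1 := by
  simp [e, Complex.exp_two_pi_mul_I]

lemma e_add_two_pi (φ : ℝ) : e (φ + 2 * π) = e φ := by simp [e_add]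

lemma e_add_pi (φ : ℝ) : e (φ + π) = -e φ := by simp [e_add]

lemma tc_add (φ : ℝ) (z w : ℂ) : tc φ (z + w) = tc φ z + tc φ w := by
  simp [tc]; ring

lemma tc_sub (φ : ℝ) (z w : ℂ) : tc φ (z - w) = tc φ z - tc φ w := by
  simp [tc]; ring

lemma tc_mul (φ s : ℝ) (z : ℂ) : tc φ (s * z) = s * tc φ z := by
  simp [tc]; ring

lemma tc_smul (φ s : ℝ) (z : ℂ) : tc φ (s • z) = s * tc φ z := by
  simp [tc]; ring

lemma yc_add (φ : ℝ) (z w : ℂ) : yc φ (z + w) = yc φ z + yc φ w := by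
  simp [yc]; ring

lemma yc_sub (φ : ℝ) (z w : ℂ) : yc φ (z - w) = yc φ z - yc φ w := by
  simp [yc]; ring

lemma yc_mul (φ s : ℝ) (z : ℂ) : yc φ (s * z) = s * yc φ z := by
  simp [yc]; ring

lemma yc_smul (φ s : ℝ) (z : ℂ) : yc φ (s • z) = s * yc φ z := by
  simp [yc]; ring

lemma tc_e (φ ψ : ℝ) : tc φ (e ψ) = Real.sin (ψ - φ) := by
  simp [tc, Real.sin_sub]; ring

lemma yc_e (φ ψ : ℝ) : yc φ (e ψ) = Real.cos (ψ - φ) := by
  simp [yc, Real.cos_sub]; ring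

@[simp] lemma tc_e_self (φ : ℝ) : tc φ (e φ) = 0 := by simp [tc_e]

@[simp] lemma yc_e_self (φ : ℝ) : yc φ (e φ) = 1 := by simp [yc_e]

@[simp] lemma tc_zero (φ : ℝ) : tc φ 0 = 0 := by simp [tc]

@[simp] lemma yc_zero (φ : ℝ) : yc φ 0 = 0 := by simp [yc]

lemma tc_pt (C : Set ℂ) (φ θ : ℝ) : tc φ (pt C θ) = rad C θ * Real.sin (θ - φ) := by
  rw [pt, tc_mul, tc_e]

lemma yc_pt (C : Set ℂ) (φ θ : ℝ) : yc φ (pt C θ) = rad C θ * Real.cos (θ - φ) := by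
  rw [pt, yc_mul, yc_e]

lemma continuous_tc (φ : ℝ) : Continuous (tc φ) := by
  unfold tc; fun_prop

lemma continuous_yc (φ : ℝ) : Continuous (yc φ) := by
  unfold yc; fun_prop

lemma continuous_e : Continuous e := by
  unfold e; fun_prop

lemma decomp (φ : ℝ) (z : ℂ) : z = (yc φ z : ℂ) * e φ + (tc φ z : ℂ) * (Complex.I * e φ) := by
  have h := Real.sin_sq_add_cos_sq φ
  apply Complex.ext
  · simp only [Complex.add_re, Complex.mul_re, Complex.mul_im, Complex.ofReal_re,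
      Complex.ofReal_im, e_re, e_im, Complex.I_re, Complex.I_im, yc, tc]
    linear_combination (-z.re) * h
  · simp only [Complex.add_im, Complex.mul_re, Complex.mul_im, Complex.ofReal_re,
      Complex.ofReal_im, e_re, e_im, Complex.I_re, Complex.I_im, yc, tc]
    linear_combination (-z.im) * h

lemma eq_add_of_tc_eq {φ : ℝ} {z w : ℂ} (h : tc φ z = tc φ w) :
    z = w + ((yc φ z - yc φ w : ℝ) : ℂ) * e φ := by
  have h1 := decomp φ z
  have h2 := decomp φ w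
  rw [h] at h1
  push_cast
  linear_combination h1 - h2

end Pool.Agent.H45.XR
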