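import Mathlib
import Pool.Agent.H45.XR.Defs

set_option autoImplicit false

open Set
open scoped Real

namespace Pool.Agent.H45.XR

/-- B5 : combinatorics of the arcs -/
theorem gc_of_arcs {M : ℕ} (hM : 0 < M) {c : Fin 3 → ℤ} {w : ℤ → ℤ}
    (hw : ∀ x, w (x + M) = w x) (hc : ∀ i x, w (c i - 1 - x) = - w x)
    (h0 : ∀ x, w x ≠ 0 ∨ w (x - 1) ≠ 0) :
    gc M c ≠ 1 ∧ (gc M c = 2 → Even (c 0)) := by
  -- the group of periods of `w`
  have hper : ∀ {d : ℤ}, (∀ x, w (x + d) = w x) → ∀ (n : ℤ) x, w (x + n * d) = w x := by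
    intro d hd n
    have hnat : ∀ (n : ℕ) x, w (x + n * d) = w x := by
      intro n
      induction n with
      | zero => simp
      | succ n ih =>
        intro x
        have : x + ((n + 1 : ℕ) : ℤ) * d = (x + n * d) + d := by push_cast; ring
        rw [this, hd, ih]
    rcases Int.eq_nat_or_neg n with ⟨m, rfl | rfl⟩
    · exact hnat m
    · intro x
      have := hnat m (x + -(m : ℤ) * d)
      rw [← this]; congr 1; ring
  have hd : ∀ i, ∀ x, w (x + (c i - c 0)) = w x := by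
    intro i x
    have h1 := hc i (c 0 - 1 - x)
    rw [hc 0 x] at h1
    have : c i - 1 - (c 0 - 1 - x) = x + (c i - c 0) := by ring
    rw [this] at h1
    rw [h1]; ring
  have hg : ∀ x, w (x + (gc M c : ℤ)) = w x := by
    intro x
    have h1 : ((gc M c : ℕ) : ℤ) = (Int.gcd (c 1 - c 0) (c 2 - c 0) : ℤ) *
        Int.gcdA (Int.gcd (c 1 - c 0) (c 2 - c 0)) M +
        M * Int.gcdB (Int.gcd (c 1 - c 0) (c 2 - c 0)) M := by
      unfold gc; exact Int.gcd_eq_gcd_ab _ _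
    have h2 : ((Int.gcd (c 1 - c 0) (c 2 - c 0) : ℕ) : ℤ) =
        (c 1 - c 0) * Int.gcdA (c 1 - c 0) (c 2 - c 0) +
        (c 2 - c 0) * Int.gcdB (c 1 - c 0) (c 2 - c 0) := Int.gcd_eq_gcd_ab _ _
    obtain ⟨A, hA⟩ : ∃ A, A = Int.gcdA (Int.gcd (c 1 - c 0) (c 2 - c 0)) M := ⟨_, rfl⟩
    obtain ⟨B, hB⟩ : ∃ B, B = Int.gcdB (Int.gcd (c 1 - c 0) (c 2 - c 0)) M := ⟨_, rfl⟩
    obtain ⟨A', hA'⟩ : ∃ A', A' = Int.gcdA (c 1 - c 0) (c 2 - c 0) := ⟨_, rfl⟩
    obtain ⟨B', hB'⟩ : ∃ B', B' = Int.gcdB (c 1 - c 0) (c 2 - c 0) := ⟨_, rfl⟩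
    rw [← hA, ← hB] at h1
    rw [← hA', ← hB'] at h2
    rw [h1, h2]
    have h3 : x + (((c 1 - c 0) * A' + (c 2 - c 0) * B') * A + M * B) =
        ((x + (A' * A) * (c 1 - c 0)) + (B' * A) * (c 2 - c 0)) + B * M := by ring
    rw [h3, hper hw, hper (hd 2), hper (hd 1)]
  have hne : ∃ x, w x ≠ 0 := by
    rcases h0 0 with h | h
    · exact ⟨_, h⟩
    · exact ⟨_, h⟩
  obtain ⟨x₀, hx₀⟩ := hne
  refine ⟨fun h1 => ?_, fun h2 => ?_⟩
  · rw [h1] at hg
    have hconst : ∀ x, w x = w x₀ := by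
      intro x
      have := hper (d := 1) (by simpa using hg) (x - x₀) x₀
      rw [← this]; congr 1; ring
    have h2 := hc 0 x₀
    rw [hconst (c 0 - 1 - x₀)] at h2
    omega
  · by_contra hodd
    rw [h2] at hg
    rw [Int.not_even_iff_odd] at hodd
    obtain ⟨m, hm⟩ := hodd
    have h3 := hc 0 x₀
    have h4 := hper (d := 2) (by simpa using hg) (m - x₀) x₀
    have h5 : x₀ + (m - x₀) * 2 = c 0 - 1 - x₀ := by rw [hm]; ring
    rw [h5, h3] at h4
    omega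

end Pool.Agent.H45.XR
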