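import Pool.Agent.H45.XR.Defs
import Pool.Agent.H7.XR.A1
import Pool.Agent.H7.XR.A2
import Pool.Agent.H91.XR.B1
import Pool.Agent.H91.XR.B2
import Pool.Agent.H65.XR.B3
import Pool.Agent.H97.XR.B4
import Pool.Agent.H45.XR.B5
import Pool.Agent.H20.XR.B6
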