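import Mathlib
import Pool.Agent.H36.XR.C2
import Pool.Agent.H36.XR.C3
import Pool.Agent.H70.XR.C4

set_option autoImplicit false

open MeasureTheory Set Filter Topology
open scoped Real ENNReal

namespace Pool.Agent.H45.XR

theorem Zset_interior {C : Set ℂ} (hC : Body C) {M : ℕ} {c : Fin 3 → ℤ} (hT : Typ M c)
    (h6 : ¬ (M = 6 ∧ gc M c = 2)) {κ : ℝ} (hκ : 0 < κ) : interior (Zset C M c κ) = ∅ := by
  rcases type_arith hT h6 with ⟨i, j, k, hij, hik, hjk, x, h1, h2, h3, h4⟩ |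
    ⟨n, rfl, hn, i, j, k, hij, hik, hjk, x, e', q, h1, h2, h3, h4, h5⟩
  · exact cycle_case hC (by have := hT.hM; omega) c hκ hij hik hjk x h1 h2 h3 h4
  · exact path_case hC hn c hκ hij hik hjk x e' q h1 h2 h3 h4 h5

end Pool.Agent.H45.XR
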