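import Pool.Agent.H45.XR.B7
import Pool.Agent.H89.XR.C0
import Pool.Agent.H89.XR.C1
import Pool.Agent.H45.XR.Zint
import Pool.Agent.H20.XR.P1
import Pool.Agent.H97.XR.P2
import Pool.Agent.H20.XR.H0
import Pool.Agent.H31.XR.F
import Pool.Agent.H70.XR.L
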