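import Mathlib
import Pool.Agent.H45.XR.AllA

set_option autoImplicit false

open MeasureTheory Set Filter Topology
open scoped Real ENNReal

namespace Pool.Agent.H45.XR

lemma rad_cont {C : Set ℂ} (hC : Body C) : Continuous (rad C) := by
  obtain ⟨L, hL⟩ := rad_lipschitz hC
  exact hL.continuous

lemma EE_closed {C C' : Set ℂ} (hC : Body C) (hC' : Body C') : IsClosed (EE C C') :=
  isClosed_eq (rad_cont hC) (rad_cont hC')

lemma EE_periodic {C C' : Set ℂ} (θ : ℝ) : θ ∈ EE C C' ↔ θ + 2 * π ∈ EE C C' := by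
  simp only [EE, mem_ofPred_eq, rad_periodic]

lemma EE_ne_univ {C C' : Set ℂ} (hC : Body C) (hC' : Body C') (hne : C ≠ C') :
    EE C C' ≠ univ := by
  intro h
  apply hne
  ext z
  have h1 : z = (‖z‖ : ℂ) * e z.arg := by
    rw [e, Complex.norm_mul_exp_arg_mul_I]
  have h2 : z.arg ∈ EE C C' := by rw [h]; trivial
  have h3 : rad C z.arg = rad C' z.arg := h2
  rw [h1, mem_iff_le_rad hC _ (norm_nonneg z), mem_iff_le_rad hC' _ (norm_nonneg z), h3]

lemma Psi_cont {C C' : Set ℂ} (hC : Body C) (hC' : Body C') : Continuous (Psi C C') := by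
  have h1 := rad_cont hC
  have h2 := rad_cont hC'
  have h3 : Continuous (fun s => rad C' s ^ 2 - rad C s ^ 2) := by fun_prop
  exact intervalIntegral.continuous_primitive (fun a b => h3.intervalIntegrable a b) 0

lemma Psi_ne {C C' : Set ℂ} (hC : Body C) (hC' : Body C') {a b : ℝ} (hab : a < b)
    (hE : Ioo a b ∩ EE C C' = ∅) : Psi C C' a ≠ Psi C C' b := by
  have h1 := rad_cont hC
  have h2 := rad_cont hC'
  have h3 : Continuous (fun s => rad C' s ^ 2 - rad C s ^ 2) := by fun_prop
  have hdiff : Psi C C' b - Psi C C' a = ∫ s in a..b, (rad C' s ^ 2 - rad C s ^ 2) := by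
    unfold Psi
    rw [intervalIntegral.integral_interval_sub_left (h3.intervalIntegrable _ _)
      (h3.intervalIntegrable _ _)]
  have hne : ∀ s ∈ Ioo a b, rad C' s - rad C s ≠ 0 := by
    intro s hs h
    have : s ∈ Ioo a b ∩ EE C C' := ⟨hs, by simp only [EE, mem_ofPred_eq]; linarith⟩
    rw [hE] at this
    exact this
  have hsign : (∀ s ∈ Ioo a b, 0 < rad C' s - rad C s) ∨
      (∀ s ∈ Ioo a b, rad C' s - rad C s < 0) := by
    by_contra hcon
    push Not at hcon
    obtain ⟨⟨s, hs, hs'⟩, t, ht, ht'⟩ := hcon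
    have hs'' : rad C' s - rad C s < 0 := lt_of_le_of_ne hs' (hne s hs)
    have ht'' : 0 < rad C' t - rad C t := lt_of_le_of_ne ht' (hne t ht).symm
    have hpre : IsPreconnected (Ioo a b) := isPreconnected_Ioo
    have hcont : ContinuousOn (fun s => rad C' s - rad C s) (Ioo a b) := by fun_prop
    obtain ⟨r, hr, hr'⟩ := hpre.intermediate_value hs ht hcont ⟨hs''.le, ht''.le⟩
    exact hne r hr hr'
  have hpos : ∀ θ, 0 < rad C θ := rad_pos hC
  have hpos' : ∀ θ, 0 < rad C' θ := rad_pos hC'
  rcases hsign with h | h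
  · have : 0 < ∫ s in a..b, (rad C' s ^ 2 - rad C s ^ 2) := by
      apply intervalIntegral.intervalIntegral_pos_of_pos_on (h3.intervalIntegrable _ _) _ hab
      intro s hs
      have := h s hs
      nlinarith [hpos s, hpos' s]
    intro heq
    rw [heq, sub_self] at hdiff
    linarith
  · have : 0 < ∫ s in a..b, (rad C s ^ 2 - rad C' s ^ 2) := by
      have h4 : Continuous (fun s => rad C s ^ 2 - rad C' s ^ 2) := by fun_prop
      apply intervalIntegral.intervalIntegral_pos_of_pos_on (h4.intervalIntegrable _ _) _ hab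
      intro s hs
      have := h s hs
      nlinarith [hpos s, hpos' s]
    have h5 : ∫ s in a..b, (rad C s ^ 2 - rad C' s ^ 2) =
        - ∫ s in a..b, (rad C' s ^ 2 - rad C s ^ 2) := by
      rw [← intervalIntegral.integral_neg]; congr 1; ext s; ring
    intro heq
    rw [heq, sub_self] at hdiff
    linarith

/-- comparison of the sums. -/
lemma sum_lt {C : Set ℂ} (hC : Body C) {M : ℕ} (hM : 3 ≤ M) {v : ℤ → ℝ} (hv : StrictMono v)
    (hp : ∀ x, v (x + M) = v x + 2 * π) {s s' : ℤ} {ψ ψ' : ℝ}
    (h : ∀ x y, x + y = s → x < y → y < x + M → Phi C (v x) (v y) = ψ)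
    (h' : ∀ x y, x + y = s' → x < y → y < x + M → Phi C (v x) (v y) = ψ') (hψ : ψ < ψ') :
    s < s' := by
  by_contra hcon
  push Not at hcon
  have hdom : ∀ x y : ℤ, x < y → y < x + M → v x < v y ∧ v y < v x + 2 * π := by
    intro x y h1 h2
    refine ⟨hv h1, ?_⟩
    rw [← hp]; exact hv h2
  obtain ⟨x, y, x', y', h1, h2, h3, h4, h5, h6, h7, h8⟩ : ∃ x y x' y' : ℤ, x + y = s' ∧ x < y ∧
      y < x + M ∧ x' + y' = s ∧ x' < y' ∧ y' < x' + M ∧ x ≤ x' ∧ y ≤ y' := by
    rcases Int.even_or_odd' s' with ⟨k, hk | hk⟩ <;> rcases Int.even_or_odd' s with ⟨l, hl | hl⟩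
    · exact ⟨k - 1, k + 1, l - 1, l + 1, by omega, by omega, by omega, by omega, by omega,
        by omega, by omega, by omega⟩
    · exact ⟨k - 1, k + 1, l, l + 1, by omega, by omega, by omega, by omega, by omega,
        by omega, by omega, by omega⟩
    · exact ⟨k, k + 1, l - 1, l + 1, by omega, by omega, by omega, by omega, by omega,
        by omega, by omega, by omega⟩
    · exact ⟨k, k + 1, l, l + 1, by omega, by omega, by omega, by omega, by omega,
        by omega, by omega, by omega⟩
  have e1 := h' x y h1 h2 h3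
  have e2 := h x' y' h4 h5 h6
  obtain ⟨d1, d2⟩ := hdom x y h2 h3
  obtain ⟨d3, d4⟩ := hdom x' y' h5 h6
  have := Phi_mono hC d1 d2 d3 d4 (hv.monotone h7) (hv.monotone h8)
  linarith

theorem planar_structure {C C' : Set ℂ} (hC : Body C) (hC' : Body C') (hne : C ≠ C')
    {φ : Fin 3 → ℝ} (h01 : φ 0 < φ 1) (h12 : φ 1 < φ 2) (h20 : φ 2 < φ 0 + π)
    (hX : ∀ i, SameX C C' (φ i)) (hS : ∀ i, NoSeg C (φ i)) :
    ∃ (M : ℕ) (c : Fin 3 → ℤ) (v : ℤ → ℝ), Typ M c ∧ StrictMono v ∧
      (∀ x, v (x + M) = v x + 2 * π) ∧ v 0 ∈ Icc 0 (2 * π) ∧ (∀ x, v x ∈ EE C C') ∧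
      (∀ i x y, x + y = c i → x < y → y < x + M → Phi C (v x) (v y) = φ i) ∧
      (∀ i x, (2 * x = c i ∨ 2 * x = c i + M) → Lone C C' (φ i) (pt C (v x))) := by
  have hV : volume C = volume C' := sameX_volume hC.cpt hC'.cpt (hX 0)
  have hσ := fun i => (dir_structure hC hC' (hX i) (hS i)).2
  choose σ hσE hσσ hσa hσp hσΦ hσL hσΨ using hσ
  obtain ⟨M, v, c, w, hM0, hv, hp, hvE, hσv, hwp, hwc, hw0, hwE⟩ :=
    arcs (EE_closed hC hC') EE_periodic (dir_structure hC hC' (hX 0) (hS 0)).1
      (EE_ne_univ hC hC' hne) (Psi_cont hC hC') (Psi_periodic hC hC' hV)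
      (fun a _ b _ hab hE => Psi_ne hC hC' hab hE) σ hσE hσσ hσa hσp hσΨ
  obtain ⟨hg1, hg2⟩ := gc_of_arcs hM0 hwp hwc hw0
  have hM : 3 ≤ M := by
    by_contra hlt
    have hM12 : M = 1 ∨ M = 2 := by omega
    rcases hM12 with rfl | rfl
    · exact hg1 (by simp [gc])
    · have hgc2 : gc 2 c = 2 := by
        have h1 : gc 2 c ∣ 2 := by
          have : ((gc 2 c : ℕ) : ℤ) ∣ ((2 : ℕ) : ℤ) := Int.gcd_dvd_right _ _
          exact_mod_cast this
        have h2 := Nat.le_of_dvd (by norm_num) h1
        have h3 : gc 2 c ≠ 0 := by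
          intro h0
          rw [h0] at h1
          omega
        omega
      obtain ⟨m, hm⟩ := hg2 hgc2
      have hper : ∀ (n : ℕ) x, w (x + 2 * n) = w x := by
        intro n
        induction n with
        | zero => simp
        | succ n ih =>
          intro x
          have : x + 2 * ((n + 1 : ℕ) : ℤ) = (x + 2 * n) + (2 : ℕ) := by push_cast; ring
          rw [this, hwp, ih]
      have hperZ : ∀ (n : ℤ) x, w (x + 2 * n) = w x := by
        intro n x
        rcases Int.eq_nat_or_neg n with ⟨k, rfl | rfl⟩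
        · exact hper k x
        · have := hper k (x + 2 * -(k : ℤ))
          rw [← this]; congr 1; ring
      have hne1 : ∀ x, w (x + 1) = - w x := by
        intro x
        rw [← hwc 0 x, ← hperZ (m - 1 - x) (x + 1)]
        congr 1
        rw [hm]; ring
      have hall : ∀ x, w x ≠ 0 := by
        intro x hx
        rcases hw0 x with h | h
        · exact h hx
        · have h2 := hne1 (x - 1)
          rw [sub_add_cancel] at h2
          rw [hx] at h2
          omega
      have e1 : v 2 = v 0 + 2 * π := by simpa using hp 0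
      exact two_points hC hC' h01 (by linarith) (hX 0) (hX 1) (hv (show (0 : ℤ) < 1 by norm_num))
        (by rw [← e1]; exact hv (by norm_num)) (hvE 0) (hvE 1)
        (by simpa using hwE 0 (hall 0)) (by rw [← e1]; simpa using hwE 1 (hall 1))
  have hrel : ∀ i x y, x + y = c i → x < y → y < x + M → Phi C (v x) (v y) = φ i := by
    intro i x y hxy h1 h2
    have h3 : σ i (v x) = v y := by rw [hσv]; congr 1; omega
    have h4 := hσΦ i (v x) (hvE x) (by rw [h3]; exact hv h1)
      (by rw [h3, ← hp]; exact hv h2)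
    rwa [h3] at h4
  have hrelM : ∀ x y, x + y = c 0 + M → x < y → y < x + M → Phi C (v x) (v y) = φ 0 + π := by
    intro x y hxy h1 h2
    have h3 := hrel 0 (y - M) x (by omega) (by omega) (by omega)
    have h4 : v (y - M) + 2 * π = v y := by rw [← hp]; congr 1; ring
    have h5 := Phi_shift hC (hv (show y - M < x by omega)) (by rw [h4]; exact hv h1)
    rw [h4, h3] at h5
    exact h5
  have hc01 : c 0 < c 1 := sum_lt hC hM hv hp (hrel 0) (hrel 1) h01
  have hc12 : c 1 < c 2 := sum_lt hC hM hv hp (hrel 1) (hrel 2) h12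
  have hc20 : c 2 < c 0 + M := sum_lt hC hM hv hp (hrel 2) hrelM h20
  have hlone : ∀ i x, (2 * x = c i ∨ 2 * x = c i + M) → Lone C C' (φ i) (pt C (v x)) := by
    intro i x hx
    rcases hx with hx | hx
    · refine hσL i (v x) (hvE x) 0 ?_
      rw [hσv]
      have : c i - x = x := by omega
      rw [this]; simp
    · refine hσL i (v x) (hvE x) (-1) ?_
      rw [hσv]
      have h1 : c i - x = x - M := by omega
      have h2 := hp (x - M)
      rw [sub_add_cancel] at h2
      rw [h1, h2]; push_cast; ring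
  -- normalisation
  have hpZ : ∀ (n : ℤ) x, v (x + n * M) = v x + 2 * π * n := by
    have hnat : ∀ (n : ℕ) x, v (x + n * M) = v x + 2 * π * n := by
      intro n
      induction n with
      | zero => simp
      | succ n ih =>
        intro x
        have : x + ((n + 1 : ℕ) : ℤ) * M = (x + n * M) + M := by push_cast; ring
        rw [this, hp, ih]; push_cast; ring
    intro n x
    rcases Int.eq_nat_or_neg n with ⟨k, rfl | rfl⟩
    · exact_mod_cast hnat k x
    · have := hnat k (x + -(k : ℤ) * M)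
      have h2 : x + -(k : ℤ) * M + k * M = x := by ring
      rw [h2] at this
      push_cast at this ⊢
      linarith
  have h2pi : (0 : ℝ) < 2 * π := by positivity
  set k : ℤ := ⌊v 0 / (2 * π)⌋ with hk
  have hk1 : (k : ℝ) * (2 * π) ≤ v 0 := by
    have := Int.floor_le (v 0 / (2 * π))
    rwa [le_div_iff₀ h2pi] at this
  have hk2 : v 0 < ((k : ℝ) + 1) * (2 * π) := by
    have := Int.lt_floor_add_one (v 0 / (2 * π))
    rwa [div_lt_iff₀ h2pi] at this
  refine ⟨M, fun i => c i + 2 * (k * M), fun x => v (x + (-k) * M), ⟨hM, by omega, by omega,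
    by omega, ?_, ?_⟩, ?_, ?_, ?_, ?_, ?_, ?_⟩
  · have : gc M (fun i => c i + 2 * (k * M)) = gc M c := by
      unfold gc
      have e1 : c 1 + 2 * (k * M) - (c 0 + 2 * (k * M)) = c 1 - c 0 := by ring
      have e2 : c 2 + 2 * (k * M) - (c 0 + 2 * (k * M)) = c 2 - c 0 := by ring
      simp only [e1, e2]
    rw [this]; exact hg1
  · have : gc M (fun i => c i + 2 * (k * M)) = gc M c := by
      unfold gc
      have e1 : c 1 + 2 * (k * M) - (c 0 + 2 * (k * M)) = c 1 - c 0 := by ring
      have e2 : c 2 + 2 * (k * M) - (c 0 + 2 * (k * M)) = c 2 - c 0 := by ring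
      simp only [e1, e2]
    rw [this]
    intro h
    exact (hg2 h).add (even_two_mul _)
  · intro x y hxy
    exact hv (by linarith)
  · intro x
    have : x + (M : ℤ) + (-k) * M = (x + (-k) * M) + M := by ring
    simp only [this, hp]
  · have := hpZ (-k) 0
    simp only [this]
    push_cast
    constructor
    · linarith
    · linarith
  · intro x; exact hvE _
  · intro i x y hxy h1 h2
    refine hrel i _ _ ?_ (by linarith) (by linarith)
    linarith [hxy]
  · intro i x hx
    refine hlone i _ ?_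
    rcases hx with hx | hx
    · left; linarith
    · right; linarith

end Pool.Agent.H45.XR
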