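import Mathlib
import Pool.Agent.H45.XR.AllB

set_option autoImplicit false

open MeasureTheory Set Filter Topology
open scoped Real ENNReal

namespace Pool.Agent.H45.XR

/-! ### translations -/

/-- the translate `C - z`. -/
def tr (C : Set ℂ) (z : ℂ) : Set ℂ := {w | w + z ∈ C}

lemma mem_tr {C : Set ℂ} {z w : ℂ} : w ∈ tr C z ↔ w + z ∈ C := Iff.rfl

lemma tr_eq (C : Set ℂ) (z : ℂ) : tr C z = (Homeomorph.addRight z) ⁻¹' C := rfl

lemma convex_tr {C : Set ℂ} (h : Convex ℝ C) (z : ℂ) : Convex ℝ (tr C z) :=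
  h.translate_preimage_left z

lemma compact_tr {C : Set ℂ} (h : IsCompact C) (z : ℂ) : IsCompact (tr C z) := by
  rw [tr_eq]; exact (Homeomorph.addRight z).isCompact_preimage.mpr h

lemma interior_tr (C : Set ℂ) (z : ℂ) : interior (tr C z) = tr (interior C) z := by
  rw [tr_eq, tr_eq]; exact ((Homeomorph.addRight z).preimage_interior C).symm

lemma noSeg_tr {C : Set ℂ} {z : ℂ} {φ : ℝ} (h : NoSeg C φ) : NoSeg (tr C z) φ := by
  intro p hp q hq hpq ht
  obtain ⟨w, hw, hw'⟩ := h (p + z) hp (q + z) hq (by simpa using hpq)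
    (by rw [tc_add, tc_add, ht])
  refine ⟨w - z, ?_, ?_⟩
  · rw [interior_tr, mem_tr]; simpa using hw
  · rw [tc_sub, hw', tc_add]; ring

lemma sameX_tr {C C' : Set ℂ} {z : ℂ} {φ : ℝ} (h : SameX C C' φ) :
    SameX (tr C z) (tr C' z) φ := by
  intro p
  have := h (p + z)
  simp only [tr, mem_ofPred_eq]
  have h1 : ∀ s : ℝ, p + s * e φ + z = p + z + s * e φ := fun s => by ring
  simp only [h1]
  exact this

lemma lone_tr {C C' : Set ℂ} {z p : ℂ} {φ : ℝ} (h : Lone (tr C z) (tr C' z) φ p) :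
    Lone C C' φ (p + z) := by
  intro s hs hs'
  have h1 : p + z + s * e φ = p + s * e φ + z := by ring
  rw [h1] at hs hs'
  exact h s hs hs'

lemma hex_tr {C C' : Set ℂ} {z : ℂ} {φ : Fin 3 → ℝ} {p : Fin 6 → ℂ}
    (h : HexPair (tr C z) (tr C' z) φ p) : HexPair C C' φ (fun x => p x + z) := by
  have key : ∀ (a b : Fin 6) (i : Fin 3), (∃ s : ℝ, 0 < s ∧ p a = p b + s * e (φ i)) →
      ∃ s : ℝ, 0 < s ∧ p a + z = p b + z + s * e (φ i) := by
    rintro a b i ⟨s, hs, h⟩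
    exact ⟨s, hs, by rw [h]; ring⟩
  refine ⟨⟨fun x => h.hex.mem x, fun x hx => h.hex.nint x ?_, key _ _ _ h.hex.r0a,
    key _ _ _ h.hex.r0b, key _ _ _ h.hex.r1a, key _ _ _ h.hex.r1b, key _ _ _ h.hex.r2a,
    key _ _ _ h.hex.r2b, ?_, ?_, ?_⟩, fun x => h.mem' x, ⟨lone_tr h.l0.1, lone_tr h.l0.2⟩,
    ⟨lone_tr h.l1.1, lone_tr h.l1.2⟩, ⟨lone_tr h.l2.1, lone_tr h.l2.2⟩⟩
  · rw [interior_tr]; exact hx
  · have := h.hex.t0; simp only [tc_add]; constructor
    · linarith [this.1]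
    · constructor
      · linarith [this.2.1]
      · linarith [this.2.2]
  · have := h.hex.t1; simp only [tc_add]; constructor
    · linarith [this.1]
    · constructor
      · linarith [this.2.1]
      · linarith [this.2.2]
  · have := h.hex.t2; simp only [tc_add]; constructor
    · linarith [this.1]
    · constructor
      · linarith [this.2.1]
      · linarith [this.2.2]

/-- centroid -/
noncomputable def cen (C : Set ℂ) : ℂ := ((volume C).toReal)⁻¹ • (∫ z in C, z)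

lemma body_tr {C : Set ℂ} (h1 : Convex ℝ C) (h2 : IsCompact C) (h3 : (interior C).Nonempty) :
    Body (tr C (cen C)) := by
  refine ⟨convex_tr h1 _, compact_tr h2 _, ?_⟩
  rw [interior_tr, mem_tr, zero_add]
  exact centroid_mem h1 h2 h3

/-! ### the bad directions -/

/-- translated section -/
noncomputable def Cq (K : Set (ℂ × ℝ)) (h : ℝ) : Set ℂ := tr (sec K h) (cen (sec K h))

lemma interior_sec_nonempty {K : Set (ℂ × ℝ)} (hK : Body3 K) {h : ℝ} (hh : h ∈ Hts K) :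
    (interior (sec K h)).Nonempty := by
  obtain ⟨z, hz⟩ := hh
  exact ⟨z, by rw [interior_sec hK ⟨z, hz⟩]; exact hz⟩

lemma body_Cq {K : Set (ℂ × ℝ)} (hK : Body3 K) {h : ℝ} (hh : h ∈ Hts K) : Body (Cq K h) :=
  body_tr (sec_convex hK h) (sec_compact hK h) (interior_sec_nonempty hK hh)

/-- bad directions at the height `h` -/
def BadAt (K : Set (ℂ × ℝ)) (h : ℝ) : Set (Fin 3 → ℝ) :=
  (⋃ (M : ℕ) (c : Fin 3 → ℤ) (k : ℕ) (_ : Typ M c ∧ ¬ (M = 6 ∧ gc M c = 2)),
    Zset (Cq K h) M c (1 / ((k : ℝ) + 1))) ∪ ⋃ i : Fin 3, {φ | ¬ NoSeg (Cq K h) (φ i)}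

lemma isMeagre_of_closed {X : Type*} [TopologicalSpace X] {s : Set X} (hs : IsClosed s)
    (hi : interior s = ∅) : IsMeagre s :=
  (hs.isNowhereDense_iff.mpr hi).isMeagre

lemma meagre_hyper (i : Fin 3) (a : ℝ) : IsMeagre {φ : Fin 3 → ℝ | φ i = a} := by
  apply isMeagre_of_closed
  · exact isClosed_eq (continuous_apply i) continuous_const
  · rw [eq_empty_iff_forall_notMem]
    intro φ hφ
    rw [mem_interior_iff_mem_nhds] at hφ
    have h1 : Tendsto (fun t : ℝ => Function.update φ i (φ i + t)) (𝓝 0) (𝓝 φ) := by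
      have : Continuous (fun t : ℝ => Function.update φ i (φ i + t)) := by fun_prop
      have h2 := this.tendsto 0
      simpa using h2
    have h2 := h1.eventually hφ
    obtain ⟨δ, hδ, hδ'⟩ := Metric.eventually_nhds_iff.mp h2
    have h3 := hδ' (y := δ / 2) (by rw [Real.dist_eq, sub_zero, abs_of_pos (by linarith)]; linarith)
    have h4 := hδ' (y := 0) (by simpa using hδ)
    simp at h3 h4
    linarith

lemma meagre_badAt {K : Set (ℂ × ℝ)} (hK : Body3 K) {h : ℝ} (hh : h ∈ Hts K) :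
    IsMeagre (BadAt K h) := by
  have hC := body_Cq hK hh
  apply IsMeagre.union
  · refine isMeagre_iUnion fun M => isMeagre_iUnion fun c => isMeagre_iUnion fun k =>
      isMeagre_iUnion fun hT => ?_
    have hk : (0 : ℝ) < 1 / ((k : ℝ) + 1) := by positivity
    exact isMeagre_of_closed (Zset_closed hC (by have := hT.1.hM; omega) c hk)
      (Zset_interior hC hT.1 hT.2 hk)
  · refine isMeagre_iUnion fun i => ?_
    have h1 : {φ : Fin 3 → ℝ | ¬ NoSeg (Cq K h) (φ i)} =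
        ⋃ a ∈ {a : ℝ | ¬ NoSeg (Cq K h) a}, {φ : Fin 3 → ℝ | φ i = a} := by
      ext φ; simp
    rw [h1]
    exact isMeagre_biUnion (noSeg_countable hC) fun a _ => meagre_hyper i a

/-- all bad directions -/
def Bad (K : Set (ℂ × ℝ)) (Z : ℕ → Set (Fin 3 → ℝ)) : Set (Fin 3 → ℝ) :=
  (⋃ (q : ℚ) (_ : (q : ℝ) ∈ Hts K), BadAt K q) ∪ ⋃ k, Z k

lemma meagre_bad {K : Set (ℂ × ℝ)} (hK : Body3 K) {Z : ℕ → Set (Fin 3 → ℝ)}
    (hZ : ∀ k, IsClosed (Z k)) (hZ' : ∀ k, interior (Z k) = ∅) : IsMeagre (Bad K Z) := by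
  apply IsMeagre.union
  · exact isMeagre_iUnion fun q => isMeagre_iUnion fun hq => meagre_badAt hK hq
  · exact isMeagre_iUnion fun k => isMeagre_of_closed (hZ k) (hZ' k)

lemma exists_gap {M : ℕ} (hM : 0 < M) {v : ℤ → ℝ} (hv : StrictMono v)
    (hp : ∀ x, v (x + M) = v x + 2 * π) : ∃ k : ℕ, ∀ x, v x + 1 / ((k : ℝ) + 1) ≤ v (x + 1) := by
  have h1 : ∀ x : ℤ, ∃ k : ℕ, 1 / ((k : ℝ) + 1) < v (x + 1) - v x := by
    intro x
    exact exists_nat_one_div_lt (by have := hv (show x < x + 1 by omega); linarith)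
  choose k hk using h1
  refine ⟨(Finset.range M).sup (fun n : ℕ => k n), fun x => ?_⟩
  have h2 : ∀ (n : ℤ) (m : ℕ), v (n + m * M) = v n + 2 * π * m := by
    intro n m
    induction m with
    | zero => simp
    | succ m ih =>
      have : n + ((m + 1 : ℕ) : ℤ) * M = n + m * M + M := by push_cast; ring
      rw [this, hp, ih]; push_cast; ring
  have h3 : ∀ (n : ℤ) (m : ℤ), v (n + m * M) = v n + 2 * π * m := by
    intro n m
    rcases Int.eq_nat_or_neg m with ⟨l, rfl | rfl⟩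
    · exact_mod_cast h2 n l
    · have := h2 (n + (-(l : ℤ)) * M) l
      have h4 : n + (-(l : ℤ)) * M + l * M = n := by ring
      rw [h4] at this
      push_cast
      linarith
  set r : ℕ := (x % M).toNat with hr
  have hM' : (0 : ℤ) < M := by exact_mod_cast hM
  have hr1 : (r : ℤ) = x % M := Int.toNat_of_nonneg (Int.emod_nonneg _ hM'.ne')
  have hr2 : r < M := by
    have := Int.emod_lt_of_pos x hM'
    omega
  have hx : x = r + (x / M) * M := by
    rw [hr1]; have := Int.emod_add_mul_ediv x M; linarith [mul_comm (M : ℤ) (x / M)]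
  have h5 := hk r
  have h6 : k r ≤ (Finset.range M).sup (fun n : ℕ => k n) :=
    Finset.le_sup (f := fun n : ℕ => k n) (Finset.mem_range.mpr hr2)
  have h7 : 1 / ((((Finset.range M).sup (fun n : ℕ => k n) : ℕ) : ℝ) + 1) ≤ 1 / ((k r : ℝ) + 1) := by
    apply one_div_le_one_div_of_le (by positivity)
    have : (k r : ℝ) ≤ (((Finset.range M).sup (fun n : ℕ => k n) : ℕ) : ℝ) := by exact_mod_cast h6
    linarith
  have h8 : v x = v r + 2 * π * ((x / M : ℤ) : ℝ) := by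
    conv_lhs => rw [hx]
    exact h3 r (x / M)
  have h9 : v (x + 1) = v (r + 1) + 2 * π * ((x / M : ℤ) : ℝ) := by
    have : x + 1 = (r + 1) + (x / M) * M := by linarith
    conv_lhs => rw [this]
    exact h3 (r + 1) (x / M)
  rw [h8, h9]
  linarith

/-- At a rational height where the sections differ there is a hexagon. -/
lemma rational_case {K K' : Set (ℂ × ℝ)} (hK : Body3 K) (hK' : Body3 K') {φ : Fin 3 → ℝ}
    (h01 : φ 0 < φ 1) (h12 : φ 1 < φ 2) (h20 : φ 2 < φ 0 + π)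
    (hX : ∀ i h, SameX (sec K h) (sec K' h) (φ i)) (hH : Hts K' = Hts K)
    {h : ℝ} (hh : h ∈ Hts K) (hb : φ ∉ BadAt K h) (hne : sec K h ≠ sec K' h) :
    ∃ p : Fin 6 → ℂ, HexPair (sec K h) (sec K' h) φ p := by
  have hh' : h ∈ Hts K' := by rw [hH]; exact hh
  have hcen : cen (sec K' h) = cen (sec K h) := by
    unfold cen
    rw [sameX_volume (sec_compact hK h) (sec_compact hK' h) (hX 0 h),
      sameX_integral (sec_compact hK h) (sec_compact hK' h) h01 (by linarith) (hX 0 h) (hX 1 h)]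
  have hC : Body (tr (sec K h) (cen (sec K h))) := body_Cq hK hh
  have hC' : Body (tr (sec K' h) (cen (sec K h))) := by
    rw [← hcen]; exact body_Cq hK' hh'
  have hne' : tr (sec K h) (cen (sec K h)) ≠ tr (sec K' h) (cen (sec K h)) := by
    intro heq
    apply hne
    ext z
    have : z - cen (sec K h) ∈ tr (sec K h) (cen (sec K h)) ↔
        z - cen (sec K h) ∈ tr (sec K' h) (cen (sec K h)) := by rw [heq]
    simpa [mem_tr] using this
  have hS : ∀ i, NoSeg (tr (sec K h) (cen (sec K h))) (φ i) := by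
    intro i
    by_contra hcon
    exact hb (Or.inr (mem_iUnion.mpr ⟨i, hcon⟩))
  obtain ⟨M, c, v, hT, hv, hp, hv0, hE, hr, hl⟩ := planar_structure hC hC' hne' h01 h12 h20
    (fun i => sameX_tr (hX i h)) hS
  by_cases h6 : M = 6 ∧ gc M c = 2
  · obtain ⟨rfl, hg⟩ := h6
    obtain ⟨p, hp⟩ := hex_of_type hC hC' h01 h12 h20 hS hT hg hv (by exact_mod_cast hp) hE
      (by exact_mod_cast hr) (by exact_mod_cast hl)
    exact ⟨_, hex_tr hp⟩
  · exfalso
    apply hb
    left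
    obtain ⟨k, hk⟩ := exists_gap (by have := hT.hM; omega) hv hp
    simp only [mem_iUnion]
    exact ⟨M, c, k, ⟨hT, h6⟩, v, hp, hk, hv0, hr⟩

/-! ### closedness of the set of heights with equal sections -/

lemma sec_subset_of_tendsto {K K' : Set (ℂ × ℝ)} (hK : Body3 K) (hK' : Body3 K') {α : ℝ}
    (hα : α ∈ Hts K) {h : ℕ → ℝ} (hh : Tendsto h atTop (𝓝 α))
    (heq : ∀ n, sec K (h n) = sec K' (h n)) : sec K α ⊆ sec K' α := by
  have h1 : interior (sec K α) ⊆ sec K' α := by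
    intro z hz
    rw [interior_sec hK hα] at hz
    have h2 : Tendsto (fun n => (z, h n)) atTop (𝓝 (z, α)) :=
      tendsto_const_nhds.prodMk_nhds hh
    have h3 : ∀ᶠ n in atTop, (z, h n) ∈ K' := by
      have := h2.eventually (mem_interior_iff_mem_nhds.mp hz)
      filter_upwards [this] with n hn
      have h4 : z ∈ sec K (h n) := hn
      rw [heq n] at h4
      exact h4
    exact hK'.cpt.isClosed.mem_of_tendsto h2 h3
  have h2 : sec K α ⊆ closure (interior (sec K α)) := by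
    rw [(sec_convex hK α).closure_interior_eq_closure_of_nonempty_interior
      (interior_sec_nonempty hK hα)]
    exact subset_closure
  exact h2.trans (closure_minimal h1 (sec_compact hK' α).isClosed)

lemma sec_eq_of_tendsto {K K' : Set (ℂ × ℝ)} (hK : Body3 K) (hK' : Body3 K') {α : ℝ}
    (hα : α ∈ Hts K) (hα' : α ∈ Hts K') {h : ℕ → ℝ} (hh : Tendsto h atTop (𝓝 α))
    (heq : ∀ n, sec K (h n) = sec K' (h n)) : sec K α = sec K' α :=
  (sec_subset_of_tendsto hK hK' hα hh heq).antisymm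
    (sec_subset_of_tendsto hK' hK hα' hh fun n => (heq n).symm)

/-- A boundary height of the set of heights where the sections differ. -/
lemma exists_boundary_height {K K' : Set (ℂ × ℝ)} (hK : Body3 K) (hK' : Body3 K')
    (hH : Hts K' = Hts K) {h₀ h₁ : ℝ} (h0 : h₀ ∈ Hts K) (h1 : h₁ ∈ Hts K)
    (he : sec K h₀ = sec K' h₀) (hne : sec K h₁ ≠ sec K' h₁) :
    ∃ α ∈ Hts K, sec K α = sec K' α ∧ ∃ q : ℕ → ℚ, Tendsto (fun n => (q n : ℝ)) atTop (𝓝 α) ∧
      ∀ n, (q n : ℝ) ∈ Hts K ∧ sec K (q n) ≠ sec K' (q n) := by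
  obtain ⟨a, b, hab, hHts, -⟩ := Hts_eq hK
  have hopen : IsOpen (Hts K) := by rw [hHts]; exact isOpen_Ioo
  set U : Set ℝ := {h | h ∈ Hts K ∧ sec K h ≠ sec K' h} with hU
  have hUo : IsOpen U := by
    rw [isOpen_iff_mem_nhds]
    intro x hx
    by_contra hcon
    have h2 : ∃ᶠ y in 𝓝 x, y ∉ U := fun h => hcon (by simpa using h)
    have h3 : ∃ᶠ y in 𝓝 x, y ∈ Hts K ∧ sec K y = sec K' y := by
      have h4 : ∀ᶠ y in 𝓝 x, y ∈ Hts K := hopen.mem_nhds hx.1
      refine (h2.and_eventually h4).mono fun y hy => ⟨hy.2, ?_⟩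
      by_contra h5
      exact hy.1 ⟨hy.2, h5⟩
    obtain ⟨u, hu, hu'⟩ := exists_seq_forall_of_frequently h3
    exact hx.2 (sec_eq_of_tendsto hK hK' hx.1 (by rw [hH]; exact hx.1) hu fun n => (hu' n).2)
  by_contra hcon
  push Not at hcon
  set V : Set ℝ := {h | h ∈ Hts K ∧ sec K h = sec K' h} with hV
  have hVo : IsOpen V := by
    rw [isOpen_iff_mem_nhds]
    intro x hx
    by_contra hc
    have h2 : ∃ᶠ y in 𝓝 x, y ∉ V := fun h => hc (by simpa using h)
    have h3 : ∃ᶠ y in 𝓝 x, y ∈ U := by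
      have h4 : ∀ᶠ y in 𝓝 x, y ∈ Hts K := hopen.mem_nhds hx.1
      refine (h2.and_eventually h4).mono fun y hy => ⟨hy.2, ?_⟩
      intro h5
      exact hy.1 ⟨hy.2, h5⟩
    have h4 : ∀ n : ℕ, ∃ q : ℚ, |(q : ℝ) - x| < 1 / ((n : ℝ) + 1) ∧ (q : ℝ) ∈ U := by
      intro n
      have hn : (0 : ℝ) < 1 / ((n : ℝ) + 1) := by positivity
      have h5 : ∀ᶠ y in 𝓝 x, |y - x| < 1 / ((n : ℝ) + 1) := by
        have := Metric.ball_mem_nhds x hn
        filter_upwards [this] with y hy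
        rwa [Metric.mem_ball, Real.dist_eq] at hy
      obtain ⟨y, hy1, hy2⟩ := (h3.and_eventually h5).exists
      have ho : IsOpen (U ∩ {y : ℝ | |y - x| < 1 / ((n : ℝ) + 1)}) :=
        hUo.inter (isOpen_lt (by fun_prop) continuous_const)
      obtain ⟨q, hq⟩ := (Rat.denseRange_cast (𝕜 := ℝ)).exists_mem_open ho ⟨y, hy1, hy2⟩
      exact ⟨q, hq.2, hq.1⟩
    choose q hq1 hq2 using h4
    obtain ⟨n, hn⟩ := hcon x hx.1 hx.2 q (by
      rw [tendsto_iff_dist_tendsto_zero]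
      apply squeeze_zero (fun n => dist_nonneg) (fun n => ?_) tendsto_one_div_add_atTop_nhds_zero_nat
      rw [Real.dist_eq]; exact (hq1 n).le)
    exact (hq2 n).2 (hn (hq2 n).1)
  have hpre : IsPreconnected (Hts K) := by rw [hHts]; exact isPreconnected_Ioo
  obtain ⟨y, -, hy1, hy2⟩ := hpre U V hUo hVo (fun y hy => by
      by_cases h5 : sec K y = sec K' y
      · exact Or.inr ⟨hy, h5⟩
      · exact Or.inl ⟨hy, h5⟩) ⟨h₁, h1, h1, hne⟩ ⟨h₀, h0, h0, he⟩
  exact hy1.2 hy2.2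

/-! ### main theorem in `ℂ × ℝ` -/

theorem main3 {K : Set (ℂ × ℝ)} (hK : Body3 K) (φ₀ : ℝ) {ε : ℝ} (hε : 0 < ε) :
    ∃ φ : Fin 3 → ℝ, (∀ i, |φ i - φ₀| < ε) ∧ φ 0 < φ 1 ∧ φ 1 < φ 2 ∧
      ∀ K' : Set (ℂ × ℝ), Body3 K' → (∀ i h, SameX (sec K h) (sec K' h) (φ i)) → K' = K := by
  obtain ⟨a, b, hab, hHts, -⟩ := Hts_eq hK
  obtain ⟨Z, hZc, hZi, hZ⟩ := crit_meagre hK
  obtain ⟨q₀, hq₀a, hq₀b⟩ := exists_rat_btwn hab
  have hq₀ : (q₀ : ℝ) ∈ Hts K := by rw [hHts]; exact ⟨hq₀a, hq₀b⟩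
  obtain ⟨z₀, hz₀⟩ := interior_sec_nonempty hK hq₀
  obtain ⟨ρ, hρ, hball⟩ := Metric.isOpen_iff.mp isOpen_interior z₀ hz₀
  obtain ⟨R, hR⟩ := (sec_compact hK (q₀ : ℝ)).isBounded.subset_closedBall 0
  have hR' : ∀ z ∈ sec K q₀, ∀ w ∈ sec K q₀, ‖z - w‖ ≤ 2 * |R| := by
    intro z hz w hw
    have h1 := hR hz
    have h2 := hR hw
    rw [mem_closedBall_zero_iff] at h1 h2
    calc ‖z - w‖ ≤ ‖z‖ + ‖w‖ := norm_sub_le _ _
      _ ≤ 2 * |R| := by linarith [le_abs_self R]
  set δ : ℝ := min ε (min 1 (ρ / (16 * (|R| + 1)))) with hδ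
  have hδ0 : 0 < δ := by positivity
  have hδε : δ ≤ ε := min_le_left _ _
  have hδ1 : δ ≤ 1 := (min_le_right _ _).trans (min_le_left _ _)
  have hδρ : δ ≤ ρ / (16 * (|R| + 1)) := (min_le_right _ _).trans (min_le_right _ _)
  set O : Set (Fin 3 → ℝ) := {φ | (∀ i, |φ i - φ₀| < δ) ∧ φ 0 < φ 1 ∧ φ 1 < φ 2} with hO
  have hOo : IsOpen O := by
    have h1 : IsOpen {φ : Fin 3 → ℝ | ∀ i, |φ i - φ₀| < δ} := by
      have : {φ : Fin 3 → ℝ | ∀ i, |φ i - φ₀| < δ} = ⋂ i, {φ : Fin 3 → ℝ | |φ i - φ₀| < δ} := by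
        ext; simp
      rw [this]
      exact isOpen_iInter_of_finite fun i => isOpen_lt (by fun_prop) continuous_const
    exact h1.inter ((isOpen_lt (continuous_apply 0) (continuous_apply 1)).inter
      (isOpen_lt (continuous_apply 1) (continuous_apply 2)))
  have hOne : O.Nonempty := by
    refine ⟨![φ₀, φ₀ + δ / 3, φ₀ + δ / 2], ?_, ?_, ?_⟩
    · intro i
      fin_cases i
      · simpa using hδ0
      · simp only [Fin.mk_one, Matrix.cons_val_one, Matrix.cons_val_zero, add_sub_cancel_left]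
        rw [abs_of_pos (by positivity)]; linarith
      · simp only [Fin.reduceFinMk, Matrix.cons_val, add_sub_cancel_left]
        rw [abs_of_pos (by positivity)]; linarith
    · simp; linarith
    · simp; linarith
  have hdense : Dense (Bad K Z)ᶜ := dense_of_mem_residual (meagre_bad hK hZc hZi)
  obtain ⟨φ, hφO, hφB⟩ := hdense.inter_open_nonempty O hOo hOne
  obtain ⟨hφδ, h01, h12⟩ := hφO
  have hd : ∀ i j, φ i - φ j < 2 * δ := by
    intro i j
    have h1 := abs_lt.mp (hφδ i)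
    have h2 := abs_lt.mp (hφδ j)
    linarith [h1.1, h1.2, h2.1, h2.2]
  have hpi : (3 : ℝ) < π := Real.pi_gt_three
  have h20 : φ 2 < φ 0 + π := by have := hd 2 0; linarith
  refine ⟨φ, fun i => (hφδ i).trans_le hδε, h01, h12, ?_⟩
  intro K' hK' hX
  have hH : Hts K' = Hts K := Hts_same hK hK' (hX 0)
  have hBadAt : ∀ q : ℚ, (q : ℝ) ∈ Hts K → φ ∉ BadAt K q := by
    intro q hq hc
    exact hφB (Or.inl (mem_iUnion.mpr ⟨q, mem_iUnion.mpr ⟨hq, hc⟩⟩))
  have hrat : ∀ q : ℚ, (q : ℝ) ∈ Hts K → sec K q ≠ sec K' q →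
      ∃ p : Fin 6 → ℂ, HexPair (sec K q) (sec K' q) φ p := fun q hq hne =>
    rational_case hK hK' h01 h12 h20 hX hH hq (hBadAt q hq) hne
  -- equality at height q₀
  have heq₀ : sec K q₀ = sec K' q₀ := by
    by_contra hne
    obtain ⟨p, hp⟩ := hrat q₀ hq₀ hne
    obtain ⟨u, hu, humin⟩ := (sec_compact hK (q₀ : ℝ)).exists_isMinOn ⟨z₀, interior_subset hz₀⟩
      (continuous_tc (φ 0)).continuousOn
    obtain ⟨w, hw, hwmax⟩ := (sec_compact hK (q₀ : ℝ)).exists_isMaxOn ⟨z₀, interior_subset hz₀⟩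
      (continuous_tc (φ 0)).continuousOn
    have h1 := width_bound (sec_convex hK q₀) h01 h12 h20 hp.hex hR' hu hw
      (fun z hz => humin hz) (fun z hz => hwmax hz)
    have hs : ∀ i, Real.sin (φ i - φ 0) ≤ 2 * δ := by
      intro i
      rcases le_total 0 (φ i - φ 0) with h | h
      · exact (Real.sin_le h).trans (hd i 0).le
      · have h2 : -(2 * δ) < φ i - φ 0 := by have := hd 0 i; linarith
        have : Real.sin (φ i - φ 0) ≤ 0 := Real.sin_nonpos_of_nonpos_of_neg_pi_le h (by linarith)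
        linarith
    -- the ball
    have hI : ∀ t : ℝ, |t| < ρ → z₀ + t * (Complex.I * e (φ 0)) ∈ sec K q₀ := by
      intro t ht
      apply interior_subset
      apply hball
      rw [Metric.mem_ball, dist_eq_norm]
      simpa using ht
    have htI : ∀ t : ℝ, tc (φ 0) (z₀ + t * (Complex.I * e (φ 0))) = tc (φ 0) z₀ + t := by
      intro t
      rw [tc_add, tc_mul]
      have : tc (φ 0) (Complex.I * e (φ 0)) = 1 := by
        simp only [tc, Complex.mul_im, Complex.mul_re, Complex.I_re, Complex.I_im, e_re, e_im]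
        have := Real.sin_sq_add_cos_sq (φ 0)
        linear_combination this
      rw [this, mul_one]
    have hρ2 : |ρ / 2| < ρ := by rw [abs_of_pos (by positivity)]; linarith
    have hρ2' : |-(ρ / 2)| < ρ := by rw [abs_neg]; exact hρ2
    have h2 : tc (φ 0) z₀ + ρ / 2 ≤ tc (φ 0) w := by
      rw [← htI]; exact hwmax (hI _ hρ2)
    have h3 : tc (φ 0) u ≤ tc (φ 0) z₀ + -(ρ / 2) := by
      rw [← htI]; exact humin (hI _ hρ2')
    have h4 : 2 * (Real.sin (φ 1 - φ 0) + Real.sin (φ 2 - φ 0)) * (2 * |R|) ≤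
        2 * (2 * δ + 2 * δ) * (2 * |R|) := by
      apply mul_le_mul_of_nonneg_right _ (by positivity)
      linarith [hs 1, hs 2]
    have h5 : 2 * (2 * δ + 2 * δ) * (2 * |R|) < ρ := by
      have h6 : δ * (16 * (|R| + 1)) ≤ ρ := by
        rwa [le_div_iff₀ (by positivity)] at hδρ
      nlinarith [abs_nonneg R]
    linarith
  -- all sections are equal
  have hall : ∀ h ∈ Hts K, sec K' h = sec K h := by
    intro h₁ hh₁
    by_contra hne
    obtain ⟨α, hα, hαeq, q, hq, hq'⟩ := exists_boundary_height hK hK' hH hq₀ hh₁ heq₀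
      (fun h => hne h.symm)
    have hcrit : Crit K φ α := hex_limit hK hK' h01 h12 h20 hα (by rw [hH]; exact hα) hαeq.symm hq
      (fun n => hrat (q n) (hq' n).1 (hq' n).2)
    obtain ⟨k, hk⟩ := hZ φ h01 h12 h20 ⟨α, hα, hcrit⟩
    exact hφB (Or.inr (mem_iUnion.mpr ⟨k, hk⟩))
  exact eq_of_sec_eq hK hK' hH hall

end Pool.Agent.H45.XR
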