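import Mathlib
import Pool.Agent.H45.XR.H

set_option autoImplicit false

open MeasureTheory Set Filter Topology Metric
open scoped Real ENNReal RealInnerProductSpace

namespace Pool.Agent.H45.XR

/-- Euclidean 3-space. -/
abbrev E3 := EuclideanSpace ℝ (Fin 3)

/-- A convex body: a compact convex set with nonempty interior. -/
def IsConvexBody (K : Set E3) : Prop :=
  Convex ℝ K ∧ IsCompact K ∧ (interior K).Nonempty

/-- The X-ray of `K` in the direction `u`: the function on the plane orthogonal to `u` whose value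
at `x` is the length of the intersection of `K` with the line through `x` parallel to `u`. -/
noncomputable def xray (u : sphere (0 : E3) 1) (K : Set E3) : (ℝ ∙ (u : E3))ᗮ → ℝ≥0∞ :=
  fun x => volume {t : ℝ | (x : E3) + t • (u : E3) ∈ K}

/-- equality of X-rays gives equality of the lengths on all parallel lines. -/
lemma xray_line {u : sphere (0 : E3) 1} {K K' : Set E3} (h : xray u K' = xray u K) (p : E3) :
    volume {t : ℝ | p + t • (u : E3) ∈ K'} = volume {t : ℝ | p + t • (u : E3) ∈ K} := by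
  have hu : ‖(u : E3)‖ = 1 := by simp
  set x : E3 := p - ⟪(u : E3), p⟫ • (u : E3) with hx
  have hxm : x ∈ (ℝ ∙ (u : E3))ᗮ := by
    rw [Submodule.mem_orthogonal_singleton_iff_inner_right, hx, inner_sub_right,
      inner_smul_right, real_inner_self_eq_norm_sq, hu]
    ring
  have h1 := congrFun h ⟨x, hxm⟩
  simp only [xray] at h1
  have key : ∀ L : Set E3, volume {t : ℝ | p + t • (u : E3) ∈ L} =
      volume {t : ℝ | x + t • (u : E3) ∈ L} := by
    intro L
    have : {t : ℝ | p + t • (u : E3) ∈ L} =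
        (fun t => t + ⟪(u : E3), p⟫) ⁻¹' {t : ℝ | x + t • (u : E3) ∈ L} := by
      ext t
      simp only [mem_ofPred_eq, mem_preimage]
      have : x + (t + ⟪(u : E3), p⟫) • (u : E3) = p + t • (u : E3) := by
        rw [hx, add_smul]; abel
      rw [this]
    rw [this, measure_preimage_add_right]
  rw [key, key, h1]

/-- the linear coordinates given by an orthonormal basis. -/
noncomputable def coord (b : OrthonormalBasis (Fin 3) ℝ E3) : ℂ × ℝ → E3 := fun q =>
  q.1.re • b 0 + q.1.im • b 1 + q.2 • b 2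

lemma coord_add (b : OrthonormalBasis (Fin 3) ℝ E3) (p q : ℂ × ℝ) :
    coord b (p + q) = coord b p + coord b q := by
  simp only [coord, Prod.fst_add, Prod.snd_add, Complex.add_re, Complex.add_im, add_smul]
  abel

lemma coord_smul (b : OrthonormalBasis (Fin 3) ℝ E3) (t : ℝ) (p : ℂ × ℝ) :
    coord b (t • p) = t • coord b p := by
  simp only [coord, Prod.smul_fst, Prod.smul_snd, Complex.smul_re, Complex.smul_im, smul_eq_mul,
    mul_smul, smul_add]

lemma coord_surj (b : OrthonormalBasis (Fin 3) ℝ E3) (x : E3) :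
    coord b (⟨⟪b 0, x⟫, ⟪b 1, x⟫⟩, ⟪b 2, x⟫) = x := by
  have := b.sum_repr' x
  rw [Fin.sum_univ_three] at this
  exact this

lemma inner_coord (b : OrthonormalBasis (Fin 3) ℝ E3) (p : ℂ × ℝ) :
    ⟪b 0, coord b p⟫ = p.1.re ∧ ⟪b 1, coord b p⟫ = p.1.im ∧ ⟪b 2, coord b p⟫ = p.2 := by
  have h := b.orthonormal
  have h0 : ∀ i j : Fin 3, ⟪b i, b j⟫ = if i = j then (1 : ℝ) else 0 :=
    orthonormal_iff_ite.mp h
  refine ⟨?_, ?_, ?_⟩ <;> simp [coord, inner_add_right, inner_smul_right, h0]

/-- coordinates as a continuous linear equivalence -/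
noncomputable def coordE (b : OrthonormalBasis (Fin 3) ℝ E3) : (ℂ × ℝ) ≃L[ℝ] E3 :=
  LinearEquiv.toContinuousLinearEquiv
    { toFun := coord b
      invFun := fun x => (⟨⟪b 0, x⟫, ⟪b 1, x⟫⟩, ⟪b 2, x⟫)
      map_add' := coord_add b
      map_smul' := coord_smul b
      left_inv := fun p => by
        obtain ⟨h1, h2, h3⟩ := inner_coord b p
        simp only [h1, h2, h3]
      right_inv := coord_surj b }

@[simp] lemma coordE_apply (b : OrthonormalBasis (Fin 3) ℝ E3) (p : ℂ × ℝ) :
    coordE b p = coord b p := rfl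

lemma body3_preimage (b : OrthonormalBasis (Fin 3) ℝ E3) {K : Set E3} (hK : IsConvexBody K) :
    Body3 (coordE b ⁻¹' K) := by
  obtain ⟨h1, h2, h3⟩ := hK
  refine ⟨h1.linear_preimage (coordE b).toLinearMap,
    (coordE b).toHomeomorph.isCompact_preimage.mpr h2, ?_⟩
  have : interior (coordE b ⁻¹' K) = coordE b ⁻¹' interior K :=
    ((coordE b).toHomeomorph.preimage_interior K).symm
  rw [this]
  obtain ⟨x, hx⟩ := h3
  exact ⟨(coordE b).symm x, by simpa using hx⟩

/-- the direction with angle `φ` in the plane spanned by `b 0`, `b 1`. -/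
noncomputable def dirE (b : OrthonormalBasis (Fin 3) ℝ E3) (φ : ℝ) : E3 := coord b (e φ, 0)

lemma dirE_eq (b : OrthonormalBasis (Fin 3) ℝ E3) (φ : ℝ) :
    dirE b φ = Real.cos φ • b 0 + Real.sin φ • b 1 := by
  simp [dirE, coord]

lemma norm_dirE (b : OrthonormalBasis (Fin 3) ℝ E3) (φ : ℝ) : ‖dirE b φ‖ = 1 := by
  have h0 : ∀ i j : Fin 3, ⟪b i, b j⟫ = if i = j then (1 : ℝ) else 0 :=
    orthonormal_iff_ite.mp b.orthonormal
  have h1 : ‖dirE b φ‖ ^ 2 = 1 := by
    rw [← real_inner_self_eq_norm_sq, dirE_eq]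
    simp only [inner_add_left, inner_add_right, inner_smul_left, inner_smul_right, h0]
    simp
    have := Real.sin_sq_add_cos_sq φ
    linarith [this]
  have h2 : (0 : ℝ) ≤ ‖dirE b φ‖ := norm_nonneg _
  nlinarith

/-- Main theorem in coordinates. -/
theorem verify (b : OrthonormalBasis (Fin 3) ℝ E3) {K : Set E3} (hK : IsConvexBody K) {ε : ℝ}
    (hε : 0 < ε) : ∃ u : Fin 3 → sphere (0 : E3) 1,
      (∀ i, ⟪b 2, (u i : E3)⟫ = 0 ∧ ‖(u i : E3) - b 0‖ < ε) ∧
      ∀ K' : Set E3, IsConvexBody K' → (∀ i, xray (u i) K' = xray (u i) K) → K' = K := by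
  obtain ⟨δ, hδ, hδ'⟩ : ∃ δ > 0, ∀ φ : ℝ, |φ| < δ → ‖dirE b φ - b 0‖ < ε := by
    have hc : Continuous (fun φ : ℝ => dirE b φ - b 0) := by
      simp only [dirE_eq]; fun_prop
    have h0 : dirE b 0 - b 0 = 0 := by simp [dirE_eq]
    obtain ⟨δ, hδ, h⟩ := Metric.continuousAt_iff.mp (hc.continuousAt (x := 0)) ε hε
    refine ⟨δ, hδ, fun φ hφ => ?_⟩
    have h2 := h (x := φ) (by simpa [Real.dist_eq] using hφ)
    simpa [h0] using h2
  obtain ⟨φ, hφ, -, -, hver⟩ := main3 (body3_preimage b hK) 0 hδ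
  refine ⟨fun i => ⟨dirE b (φ i), by simp [norm_dirE]⟩, fun i => ⟨?_, ?_⟩, ?_⟩
  · exact (inner_coord b (e (φ i), 0)).2.2
  · exact hδ' _ (by simpa using hφ i)
  · intro K' hK' hX
    have h1 := hver (coordE b ⁻¹' K') (body3_preimage b hK') (by
      intro i h p
      have h2 := xray_line (hX i) (coord b (p, h))
      have h3 : ∀ L : Set E3, {s : ℝ | p + s * e (φ i) ∈ sec (coordE b ⁻¹' L) h} =
          {t : ℝ | coord b (p, h) + t • dirE b (φ i) ∈ L} := by
        intro L
        ext s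
        simp only [sec, mem_ofPred_eq, mem_preimage, coordE_apply, dirE]
        rw [← coord_smul, ← coord_add]
        have : ((p, h) : ℂ × ℝ) + s • ((e (φ i), 0) : ℂ × ℝ) = (p + s * e (φ i), h) := by
          ext <;> simp
        rw [this]
      rw [h3, h3]
      exact h2.symm)
    ext x
    have h2 : (coordE b).symm x ∈ coordE b ⁻¹' K' ↔ (coordE b).symm x ∈ coordE b ⁻¹' K := by
      rw [h1]
    simpa using h2

/-- **Main theorem.** Every convex body in Euclidean 3-space is verified by three X-rays, whose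
directions can be taken orthogonal to any given direction `n` and arbitrarily close to any given
direction `w` orthogonal to `n`. -/
theorem main (n w : sphere (0 : E3) 1) (hnw : ⟪(n : E3), (w : E3)⟫ = 0) {ε : ℝ} (hε : 0 < ε)
    {K : Set E3} (hK : IsConvexBody K) : ∃ u : Fin 3 → sphere (0 : E3) 1,
      (∀ i, ⟪(n : E3), (u i : E3)⟫ = 0 ∧ ‖(u i : E3) - (w : E3)‖ < ε) ∧
      ∀ K' : Set E3, IsConvexBody K' → (∀ i, xray (u i) K' = xray (u i) K) → K' = K := by
  have hn : ‖(n : E3)‖ = 1 := by simp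
  have hw : ‖(w : E3)‖ = 1 := by simp
  set v : Fin 3 → E3 := ![(w : E3), 0, (n : E3)] with hv
  have hor : Orthonormal ℝ (({0, 2} : Set (Fin 3)).domRestrict v) := by
    rw [orthonormal_iff_ite]
    rintro ⟨i, hi⟩ ⟨j, hj⟩
    simp only [mem_insert_iff, mem_singleton_iff] at hi hj
    have hij : ∀ (i j : Fin 3) (hi : i ∈ ({0, 2} : Set (Fin 3))) (hj : j ∈ ({0, 2} : Set (Fin 3))),
        ⟪({0, 2} : Set (Fin 3)).domRestrict v ⟨i, hi⟩, ({0, 2} : Set (Fin 3)).domRestrict v ⟨j, hj⟩⟫ =
        ⟪v i, v j⟫ := fun i j hi hj => rfl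
    rw [hij]
    rcases hi with rfl | rfl <;> rcases hj with rfl | rfl
    · have : v 0 = (w : E3) := rfl
      rw [this, real_inner_self_eq_norm_sq, hw]; simp
    · have h1 : v 0 = (w : E3) := rfl
      have h2 : v 2 = (n : E3) := rfl
      rw [h1, h2, real_inner_comm, hnw]; simp
    · have h1 : v 0 = (w : E3) := rfl
      have h2 : v 2 = (n : E3) := rfl
      rw [h1, h2, hnw]; simp
    · have : v 2 = (n : E3) := rfl
      rw [this, real_inner_self_eq_norm_sq, hn]; simp
  obtain ⟨b, hb⟩ := hor.exists_orthonormalBasis_extension_of_card_eq (by simp)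
  have hb0 : b 0 = (w : E3) := by simpa [hv] using hb 0 (by simp)
  have hb2 : b 2 = (n : E3) := by simpa [hv] using hb 2 (by simp)
  have := verify b hK hε
  rw [hb0, hb2] at this
  exact this

end Pool.Agent.H45.XR
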